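import Mathlib

/-!
# The exceptional types: linear inequalities
-/

namespace Pool.Agent.Lib.L8.PW

open Matrix

theorem num_G2_one (k : Fin 2) : ∑ j, ((CartanMatrix.G₂ k j : ℤ) : ℝ) * (![5, 3] : Fin 2 → ℝ) j = 1 := by
  fin_cases k <;> simp [CartanMatrix.G₂, Fin.sum_univ_succ] <;> norm_num

theorem num_G2 (y : Fin 2 → ℝ) (h : ∀ k, 0 ≤ ∑ j, ((CartanMatrix.G₂ k j : ℤ) : ℝ) * y j) (i : Fin 2) : (15 : ℝ) * y i ≤ 2 * (![5, 3] : Fin 2 → ℝ) i * ∑ j, y j := by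
  have h0 := h 0
  have h1 := h 1
  simp [CartanMatrix.G₂, Fin.sum_univ_succ] at h0 h1
  fin_cases i <;> simp [Fin.sum_univ_succ] <;> linarith

theorem num_F4_one (k : Fin 4) : ∑ j, ((CartanMatrix.F₄ k j : ℤ) : ℝ) * (![11, 21, 15, 8] : Fin 4 → ℝ) j = 1 := by
  fin_cases k <;> simp [CartanMatrix.F₄, Fin.sum_univ_succ] <;> norm_num

theorem num_F4 (y : Fin 4 → ℝ) (h : ∀ k, 0 ≤ ∑ j, ((CartanMatrix.F₄ k j : ℤ) : ℝ) * y j) (i : Fin 4) : (88 : ℝ) * y i ≤ 2 * (![11, 21, 15, 8] : Fin 4 → ℝ) i * ∑ j, y j := by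
  have h0 := h 0
  have h1 := h 1
  have h2 := h 2
  have h3 := h 3
  simp [CartanMatrix.F₄, Fin.sum_univ_succ] at h0 h1 h2 h3
  fin_cases i <;> simp [Fin.sum_univ_succ] <;> linarith

theorem num_E6_one (k : Fin 6) : ∑ j, ((CartanMatrix.E₆ k j : ℤ) : ℝ) * (![8, 11, 15, 21, 15, 8] : Fin 6 → ℝ) j = 1 := by
  fin_cases k <;> simp [CartanMatrix.E₆, Fin.sum_univ_succ] <;> norm_num

theorem num_E6 (y : Fin 6 → ℝ) (h : ∀ k, 0 ≤ ∑ j, ((CartanMatrix.E₆ k j : ℤ) : ℝ) * y j) (i : Fin 6) : (96 : ℝ) * y i ≤ 2 * (![8, 11, 15, 21, 15, 8] : Fin 6 → ℝ) i * ∑ j, y j := by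
  have h0 := h 0
  have h1 := h 1
  have h2 := h 2
  have h3 := h 3
  have h4 := h 4
  have h5 := h 5
  simp [CartanMatrix.E₆, Fin.sum_univ_succ] at h0 h1 h2 h3 h4 h5
  fin_cases i <;> simp [Fin.sum_univ_succ] <;> linarith

theorem num_E7_one (k : Fin 7) : ∑ j, ((CartanMatrix.E₇ k j : ℤ) : ℝ) * (![17, 49 / 2, 33, 48, 75 / 2, 26, 27 / 2] : Fin 7 → ℝ) j = 1 := by
  fin_cases k <;> simp [CartanMatrix.E₇, Fin.sum_univ_succ] <;> norm_num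

theorem num_E7 (y : Fin 7 → ℝ) (h : ∀ k, 0 ≤ ∑ j, ((CartanMatrix.E₇ k j : ℤ) : ℝ) * y j) (i : Fin 7) : (243 : ℝ) * y i ≤ 2 * (![17, 49 / 2, 33, 48, 75 / 2, 26, 27 / 2] : Fin 7 → ℝ) i * ∑ j, y j := by
  have h0 := h 0
  have h1 := h 1
  have h2 := h 2
  have h3 := h 3
  have h4 := h 4
  have h5 := h 5
  have h6 := h 6
  simp [CartanMatrix.E₇, Fin.sum_univ_succ] at h0 h1 h2 h3 h4 h5 h6
  fin_cases i <;> simp [Fin.sum_univ_succ] <;> linarith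

theorem num_E8_one (k : Fin 8) : ∑ j, ((CartanMatrix.E₈ k j : ℤ) : ℝ) * (![46, 68, 91, 135, 110, 84, 57, 29] : Fin 8 → ℝ) j = 1 := by
  fin_cases k <;> simp [CartanMatrix.E₈, Fin.sum_univ_succ] <;> norm_num

theorem num_E8 (y : Fin 8 → ℝ) (h : ∀ k, 0 ≤ ∑ j, ((CartanMatrix.E₈ k j : ℤ) : ℝ) * y j) (i : Fin 8) : (841 : ℝ) * y i ≤ 2 * (![46, 68, 91, 135, 110, 84, 57, 29] : Fin 8 → ℝ) i * ∑ j, y j := by
  have h0 := h 0
  have h1 := h 1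
  have h2 := h 2
  have h3 := h 3
  have h4 := h 4
  have h5 := h 5
  have h6 := h 6
  have h7 := h 7
  simp [CartanMatrix.E₈, Fin.sum_univ_succ] at h0 h1 h2 h3 h4 h5 h6 h7
  fin_cases i <;> simp [Fin.sum_univ_succ] <;> linarith

end Pool.Agent.Lib.L8.PW
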