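import Mathlib

/-!
# The density theorem with explicit exponents at an archimedean place, for the globally generic spectrum of every quasi-split group: the statement

`P` is an irreducible reduced crystallographic root system with base `b`, `L / K` a finite Galois extension of number fields and `Q : QS b K L` an action of the Galois group on the Dynkin diagram of `P`. The definitions
are made in general in sections 1 (a group `G` with subgroups `Γ`, `U`; closures of images of subgroups), 2 (groups of matrices: groups `G` with a homomorphism `M` into the matrices), 3 (the local group `G(F)`, `F = ℝ`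
or `ℂ`: maximal compact subgroup, Iwasawa projection, spherical functions; the embedding of the local group at an archimedean place) and 4 (levels, the general form `Est`, `Dens` of the statement); section 5 has the
combinatorics of the root system and section 6 (`ExpDensity`) the statement for the quasi-split group `G(K)` of type `(P, Q)`. The matrices are then indexed by `b.support ⊕ ι` (`ι` the set of roots): this is the adjoint
representation of Geck's construction of the simple Lie algebra of `P` (`RootPairing.GeckConstruction`), with the Chevalley generators `e_i`, `f_i`; `G(L)` is generated by the `exp(t e_i)`, `exp(t f_i)`, `t ∈ L`;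
`s ∈ Gal(L/K)` acts on the matrices over `L` by `τ_s(X) = D_s s(X) D_s⁻¹`, `D_s` the permutation matrix of `s`; `G(K)` is generated by the unipotent upper and the unipotent lower elements of `G(L)` which are fixed by
all `τ_s`: it is the image in the adjoint group of the `K`-points of the simply connected quasi-split group of type `(P, Q)`. For `L = K` it is the split group. The real group `G` is the closure of `G(K)` in
`GL(L ⊗ ℝ)`.
-/

namespace Pool.Agent.Lib.L8.PW

open MeasureTheory Matrix NumberField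

noncomputable section

set_option linter.unusedSectionVars false

/-! ## 1. Groups -/

section groups

variable {G J : Type} [Group G] [Fintype J] [MeasurableSpace G]

/-- **The Whittaker coefficient** of `F` at `x`: the mean value of `F (u x) ψ(u)⁻¹` over `D`, a fundamental domain for a discrete subgroup of `U`. -/
def Wh (U : Subgroup G) [MeasurableSpace U] (ν : Measure U) (D : Set U) (ψ : U → ℂ) (F : G → ℂ) (x : G) : ℂ := ⨍ u in D, F (u.1 * x) * star (ψ u) ∂ν

variable [TopologicalSpace G]

/-- Continuous functions in `L²(Γ \ G)` (`D` a fundamental domain) which are eigenfunctions of the convolution operator of `φ` with the eigenvalue `c`: `∫ F (x y) φ (y) dy = c F (x)`. -/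
structure Aut (Γ : Subgroup G) (μ : Measure G) (D : Set G) (φ F : G → ℂ) (c : ℂ) : Prop where
  cont : Continuous F
  inv : ∀ γ ∈ Γ, ∀ x, F (γ * x) = F x
  l2 : MemLp F 2 (μ.restrict D)
  eig : ∀ x, ∫ y, F (x * y) * φ y ∂μ = c * F x

/-- **The inequality** at a point `x`: for orthonormal `F_1, …, F_m` in `L²(Γ \ G)` which are eigenfunctions of the convolution operator of `φ` (eigenvalues `c_l`) with parameters `z_l ∈ ℂ^J` (`Sp z F`: `F` has the
parameter `z`), `|z_l| ≤ T`, and `y_l ∈ O`: `∑_l exp(2 R (Re z_l(y_l) - ε)) |c_l W(F_l)|² ≤ X`, `W(F)` the Whittaker coefficient of `F` at `x` (mean value over `(Γ ∩ U) \ U`). -/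
def Bound (U Γ : Subgroup G) [MeasurableSpace U] (μ : Measure G) (ν : Measure U) (φ : G → ℂ) (ψ : U → ℂ) (x : G) (Sp : (J → ℂ) → (G → ℂ) → Prop) (O : Set (J → ℝ)) (T ε R X : ℝ) : Prop :=
  ∀ (D : Set G) (D₀ : Set U), IsFundamentalDomain Γ D μ → IsFundamentalDomain (Γ.subgroupOf U) D₀ ν → ∀ (m : ℕ) (F : Fin m → G → ℂ) (c : Fin m → ℂ) (z : Fin m → J → ℂ) (y : Fin m → J → ℝ),
    (∀ l, Aut Γ μ D φ (F l) (c l)) → (∀ l k, ∫ x in D, star (F l x) * F k x ∂μ = if l = k then 1 else 0) → (∀ l, Sp (z l) (F l)) → (∀ l j, ‖z l j‖ ≤ T) → (∀ l, y l ∈ O) →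
    ∑ l, Real.exp (2 * R * (∑ j, (z l j).re * y l j - ε)) * ‖c l * Wh U ν D₀ ψ (F l) x‖ ^ 2 ≤ X

end groups

section closures

variable {A B : Type} [Group A] [Group B] [TopologicalSpace B] [IsTopologicalGroup B]

/-- The closure of the image of `H` under the homomorphism `τ`. -/
def Cl (τ : A →* B) (H : Subgroup A) : Subgroup B := (H.map τ).topologicalClosure

/-- The homomorphism `τ` from `H` to the closure of its image. -/
def em (τ : A →* B) (H : Subgroup A) : H →* Cl τ H where
  toFun g := ⟨τ g.1, Subgroup.le_topologicalClosure _ ⟨g.1, g.2, rfl⟩⟩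
  map_one' := Subtype.ext (map_one τ)
  map_mul' _ _ := Subtype.ext (map_mul τ _ _)

end closures

/-! ## 2. Groups of matrices -/

section matrices

variable {n J : Type} [Fintype n] [DecidableEq n]

/-- The subgroup of `GL(K)` generated by the `exp(t e_i)` and the `exp(t f_i)`, `t ∈ K`. -/
def Grp (e f : J → Matrix n n ℚ) (K : Type) [Field K] [CharZero K] : Subgroup (GL n K) :=
  Subgroup.closure {g | ∃ (i : J) (t : K), g.1 = IsNilpotent.exp (t • (e i).map (algebraMap ℚ K)) ∨ g.1 = IsNilpotent.exp (t • (f i).map (algebraMap ℚ K))}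

variable {R : Type} [CommRing R]

/-- The matrices of the elements of a group of matrices. -/
def mat (H : Subgroup (GL n R)) : H →* Matrix n n R := (Units.coeHom (Matrix n n R)).comp H.subtype

variable {G : Type} [Group G] (ht : n → ℤ) (M : G →* Matrix n n R)

theorem uni_mul {g h : Matrix n n R} (hg : ∀ r c, ht r ≤ ht c → g r c = (1 : Matrix n n R) r c) (hh : ∀ r c, ht r ≤ ht c → h r c = (1 : Matrix n n R) r c) (r c : n) (hrc : ht r ≤ ht c) :
    (g * h) r c = (1 : Matrix n n R) r c := by
  rw [Matrix.mul_apply, Finset.sum_eq_single r]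
  · rw [hg r r le_rfl, hh r c hrc, Matrix.one_apply_eq, one_mul]
  · intro k _ hk
    by_cases h1 : ht r ≤ ht k
    · rw [hg r k h1, Matrix.one_apply_ne hk.symm, zero_mul]
    · by_cases h3 : k = c
      · subst h3
        exact absurd hrc h1
      · rw [hh k c ((not_le.1 h1).le.trans hrc), Matrix.one_apply_ne h3, mul_zero]
  · intro h
    exact absurd (Finset.mem_univ r) h

/-- **The unipotent group** `U`: the elements of `G` for which `g - 1` raises the height. -/
def Uni : Subgroup G where
  carrier := {g | ∀ r c, ht r ≤ ht c → M g r c = (1 : Matrix n n R) r c ∧ M g⁻¹ r c = (1 : Matrix n n R) r c}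
  one_mem' := fun r c _ => by simp
  mul_mem' := by
    intro g h hg hh r c hrc
    rw [_root_.mul_inv_rev, map_mul, map_mul]
    exact ⟨uni_mul ht (fun r c h => (hg r c h).1) (fun r c h => (hh r c h).1) r c hrc, uni_mul ht (fun r c h => (hh r c h).2) (fun r c h => (hg r c h).2) r c hrc⟩
  inv_mem' := by
    intro g hg r c hrc
    rw [inv_inv]
    exact ⟨(hg r c hrc).2, (hg r c hrc).1⟩

/-- The subgroup of `G` (`M` into the matrices over `L`) which is generated by the elements `g` which are fixed by the Galois group (it acts on the entries and by `σ` on the places of the entries: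
`g_(s r, s c) = s(g_(r, c))`) and unipotent upper (`g - 1` raises the height) or unipotent lower (`g - 1` lowers the height). -/
def Fix {K L : Type} [Field K] [Field L] [Algebra K L] (M : G →* Matrix n n L) (σ : (L ≃ₐ[K] L) → n → n) : Subgroup G :=
  Subgroup.closure {g | (∀ s r c, M g (σ s r) (σ s c) = s (M g r c)) ∧
    ((∀ r c, ht r ≤ ht c → M g r c = (1 : Matrix n n L) r c) ∨ (∀ r c, ht c ≤ ht r → M g r c = (1 : Matrix n n L) r c))}

variable (U : Subgroup G) [Algebra ℝ R] [Fintype J]

/-- The character `ψ(u) = e(∑ θ_i(u_i))` of `U`, `u_i` the entry of `u` at the place `a_i`, `e(x) = exp(2πix)`. -/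
def psi (a : J → n × n) (θ : J → (R →ₗ[ℝ] ℝ)) (u : U) : ℂ := Complex.exp (2 * Real.pi * ((∑ i, θ i (M u.1 (a i).1 (a i).2) : ℝ) : ℂ) * Complex.I)

/-- **Nondegenerate characters**: `ψ` is trivial on `Γ ∩ U`, and for every `i` the form `z ↦ ∑_t θ_(t i)(t z)` on `L` is not zero (it is the restriction of the exponent of `ψ` to the root group of the orbit of
the simple root `α_i`; for `L = K` it is `θ_i`); `p : L → R` is the embedding, `σ` the action of the Galois group on the simple roots. -/
def Gen {K L : Type} [Field K] [Field L] [Algebra K L] [Fintype (L ≃ₐ[K] L)] (p : L →+* R) (Γ : Subgroup G) (a : J → n × n) (σ : (L ≃ₐ[K] L) → J → J) (θ : J → (R →ₗ[ℝ] ℝ)) : Prop :=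
  (∀ i, ∃ z : L, ∑ t : L ≃ₐ[K] L, θ (σ t i) (p (t z)) ≠ 0) ∧ ∀ u : U, u.1 ∈ Γ → psi M U a θ u = 1

end matrices

section real

variable {n L R : Type} [Fintype n] [DecidableEq n] [Field L] [CommRing R] [TopologicalSpace R] [IsTopologicalRing R] (p : L →+* R) (A : Subgroup (GL n L)) (H : Subgroup A)

/-- **The real group** of `H ⊆ A ⊆ GL(L)`, `p : L → R`: the closure of `H` (in the closure of `A` in `GL(R)`). -/
def GR : Subgroup (Cl (GeneralLinearGroup.map (n := n) p) A) := Cl (em (GeneralLinearGroup.map p) A) H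

/-- The type of its elements. -/
def RG : Type := GR p A H

instance rgG : Group (RG p A H) := Subgroup.toGroup (GR p A H)

instance rgT : TopologicalSpace (RG p A H) := instTopologicalSpaceSubtype

/-- The embedding of `H` in the real group. -/
def emR : H →* RG p A H := em (em (GeneralLinearGroup.map p) A) H

/-- The matrices of the elements of the real group. -/
def matR : RG p A H →* Matrix n n R where
  toFun g := g.1.1.1
  map_one' := rfl
  map_mul' _ _ := rfl

end real

/-! ## 3. The local group -/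

section localgroup

variable {n J : Type} [Fintype n] [DecidableEq n] [Fintype J] {F : Type} [RCLike F]

/-- **The local group** `G(F)`, `F = ℝ` or `ℂ`: the closure of the group generated by the `exp(t e_i)` and the `exp(t f_i)`, `t ∈ F`. -/
def GF (e f : J → Matrix n n ℚ) (F : Type) [RCLike F] : Subgroup (GL n F) := (Grp e f F).topologicalClosure

/-- The type of its elements. -/
def LG (e f : J → Matrix n n ℚ) (F : Type) [RCLike F] : Type := GF e f F

instance lgG (e f : J → Matrix n n ℚ) (F : Type) [RCLike F] : Group (LG e f F) := Subgroup.toGroup (GF e f F)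

instance lgT (e f : J → Matrix n n ℚ) (F : Type) [RCLike F] : TopologicalSpace (LG e f F) := instTopologicalSpaceSubtype

instance lgM (e f : J → Matrix n n ℚ) (F : Type) [RCLike F] : MeasurableSpace (LG e f F) := borel _

/-- The matrices of its elements. -/
def matF (e f : J → Matrix n n ℚ) (F : Type) [RCLike F] : LG e f F →* Matrix n n F where
  toFun g := g.1.1
  map_one' := rfl
  map_mul' _ _ := rfl

variable {A : Type} [Group A] (m : A →* Matrix n n F)

/-- **The maximal compact subgroup** of the local group `A` (`m` its matrices): `C` is the group of the fixed points of the Cartan involution `ϑ`, the continuous automorphism of `A` which maps `exp(t e_i)` to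
`exp(-t̄ f_i)` and `exp(t f_i)` to `exp(-t̄ e_i)`. -/
def MaxC [TopologicalSpace A] (e f : J → Matrix n n ℚ) (C : Subgroup A) : Prop :=
  ∃ ϑ : A →* A, Continuous ϑ ∧ (∀ (i : J) (t : F) (g : A), (m g = IsNilpotent.exp (t • (e i).map (algebraMap ℚ F)) → m (ϑ g) = IsNilpotent.exp (-(star t) • (f i).map (algebraMap ℚ F))) ∧
    (m g = IsNilpotent.exp (t • (f i).map (algebraMap ℚ F)) → m (ϑ g) = IsNilpotent.exp (-(star t) • (e i).map (algebraMap ℚ F)))) ∧ ∀ g, g ∈ C ↔ ϑ g = g

/-- `ζ` is the normalised Haar measure of `C`. -/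
def Hm [MeasurableSpace A] (C : Subgroup A) (ζ : Measure A) : Prop := IsProbabilityMeasure ζ ∧ ζ (C : Set A)ᶜ = 0 ∧ ∀ k ∈ C, ζ.map (fun x => x * k) = ζ

/-- **The Iwasawa projection** `h : A → ℝ^J`: `g = u exp(h(g)) k` with `u` unipotent upper and `k ∈ C`; `exp(y)` is the diagonal matrix with the entries `exp(tor y r)`. -/
def Iw (ht : n → ℤ) (tor : (J → ℝ) → n → ℝ) (C : Subgroup A) (h : A → J → ℝ) : Prop :=
  ∀ g, ∃ u ∈ Uni ht m, ∃ t : A, ∃ k ∈ C, m t = Matrix.diagonal (fun r => ((Real.exp (tor (h g) r) : ℝ) : F)) ∧ g = u * t * k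

/-- **The spherical function** `Φ_z(g) = ∫ exp((z + ρ_F)(h(k g))) dζ(k)`, `ρ_F(y) = dF ∑ y_j`, `dF = [F : ℝ]`. -/
def Phz [MeasurableSpace A] (dF : ℕ) (ζ : Measure A) (h : A → J → ℝ) (z : J → ℂ) (g : A) : ℂ := ∫ k, Complex.exp (∑ j, (z j + dF) * (h (k * g) j : ℂ)) ∂ζ

/-- **Spherical eigenfunctions** `X` on a group `G` with the homomorphism `j : A → G`, with the parameter `z`: `∫ X(x j(k g)) dζ(k) = Φ_z(g) X(x)` for all `x ∈ G`, `g ∈ A`. -/
def Sph [TopologicalSpace A] [MeasurableSpace A] (e f : J → Matrix n n ℚ) (ht : n → ℤ) (tor : (J → ℝ) → n → ℝ) {G : Type} [Group G] (j : A →* G) (z : J → ℂ) (X : G → ℂ) : Prop :=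
  ∃ (C : Subgroup A) (ζ : Measure A) (h : A → J → ℝ), MaxC m e f C ∧ Hm C ζ ∧ Iw m ht tor C h ∧ ∀ x g, ∫ k, X (x * j (k * g)) ∂ζ = Phz (Module.finrank ℝ F) ζ h z g * X x

/-- **The embedding of the local group `A` at an archimedean place** `w` of `L` which is unramified over `K` (`L_w = K_w`), with `L_w = F` (`p : R → F` is surjective and `|p(x)| = |x|_w`, `R = L ⊗ ℝ`, `nr w x = |x|_w`):
a continuous homomorphism `j : A → G`, `G` a group of matrices over `L ⊗ ℝ` (`M` its matrices), such that `j(g)` is `g` at `w` and `1` at all places which are not over the place of `K` below `w`. -/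
structure Pl (K : Type) {L : Type} [Field K] [NumberField K] [Field L] [NumberField L] [Algebra K L] [TopologicalSpace A] {R : Type} [CommRing R] (nr : InfinitePlace L → R → ℝ) {G : Type} [Group G]
    [TopologicalSpace G] (M : G →* Matrix n n R) where
  /-- The place. -/
  w : InfinitePlace L
  unr : w.IsUnramified K
  /-- The completion. -/
  p : R →+* F
  surj : Function.Surjective p
  norm : ∀ x, ‖p x‖ = nr w x
  /-- The embedding. -/
  j : A →* G
  cont : Continuous j
  at_w : ∀ g r c, p (M (j g) r c) = m g r c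
  off_w : ∀ w' : InfinitePlace L, w'.comap (algebraMap K L) ≠ w.comap (algebraMap K L) → ∀ g r c, nr w' ((M (j g) - 1) r c) = 0

end localgroup

/-! ## 4. Number fields -/

section fields

variable {K L : Type} [Field K] [NumberField K] [Field L] [NumberField L] [Algebra K L]

/-- `x ∈ 𝔞 𝓞_L`, `𝔞` an ideal of `𝓞_K`. -/
def InO (𝔞 : Ideal (𝓞 K)) (x : L) : Prop := ∃ y ∈ 𝔞.map (algebraMap (𝓞 K) (𝓞 L)), (y : L) = x

section ideals

variable {𝔞 : Ideal (𝓞 K)} {x y : L}

theorem InO.add (hx : InO 𝔞 x) (hy : InO 𝔞 y) : InO 𝔞 (x + y) := by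
  obtain ⟨a, ha, rfl⟩ := hx
  obtain ⟨c, hc, rfl⟩ := hy
  exact ⟨a + c, Ideal.add_mem _ ha hc, by simp⟩

theorem InO.zero (𝔞 : Ideal (𝓞 K)) : InO 𝔞 (0 : L) := ⟨0, Ideal.zero_mem _, by simp⟩

theorem InO.sum {α : Type} (s : Finset α) (f : α → L) (h : ∀ k ∈ s, InO 𝔞 (f k)) : InO 𝔞 (∑ k ∈ s, f k) := by
  classical
  induction s using Finset.induction_on with
  | empty => simpa using InO.zero 𝔞
  | insert a s ha ih =>
    rw [Finset.sum_insert ha]
    exact (h a (Finset.mem_insert_self _ _)).add (ih fun k hk => h k (Finset.mem_insert_of_mem hk))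

theorem InO.mul (hx : InO 𝔞 x) (hy : InO (⊤ : Ideal (𝓞 K)) y) : InO 𝔞 (x * y) := by
  obtain ⟨a, ha, rfl⟩ := hx
  obtain ⟨c, _, rfl⟩ := hy
  exact ⟨a * c, Ideal.mul_mem_right _ _ ha, by simp⟩

theorem InO.top (hx : InO 𝔞 x) : InO (⊤ : Ideal (𝓞 K)) x := by
  obtain ⟨a, _, rfl⟩ := hx
  exact ⟨a, by rw [Ideal.map_top]; exact Submodule.mem_top, rfl⟩

theorem InO.one_top : InO (⊤ : Ideal (𝓞 K)) (1 : L) := ⟨1, by rw [Ideal.map_top]; exact Submodule.mem_top, by simp⟩

end ideals

variable (𝔫 : Ideal (𝓞 K)) {n : Type} [Fintype n] [DecidableEq n]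

theorem cong_mul {g h : Matrix n n L} (hg : ∀ r c, InO 𝔫 ((g - 1) r c)) (hk : ∀ r c, InO 𝔫 ((h - 1) r c)) (r c : n) : InO 𝔫 ((g * h - 1) r c) := by
  have int : ∀ a : Matrix n n L, (∀ r c, InO 𝔫 ((a - 1) r c)) → ∀ r c, InO (⊤ : Ideal (𝓞 K)) (a r c) := by
    intro a ha r c
    have e : a r c = (a - 1) r c + (1 : Matrix n n L) r c := by simp
    rw [e]
    refine (ha r c).top.add ?_
    by_cases h : r = c
    · subst h
      rw [Matrix.one_apply_eq]
      exact InO.one_top
    · rw [Matrix.one_apply_ne h]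
      exact InO.zero _
  have e : g * h - 1 = (g - 1) * h + (h - 1) := by
    rw [sub_mul, one_mul]
    abel
  rw [e, Matrix.add_apply, Matrix.mul_apply]
  exact (InO.sum _ _ fun k _ => (hg r k).mul (int h hk k c)).add (hk r c)

theorem cong_one (r c : n) : InO 𝔫 (((1 : Matrix n n L) - 1) r c) := by
  rw [sub_self]
  exact InO.zero _

variable {H : Type} [Group H] (M : H →* Matrix n n L)

/-- The elements `g` of the group `H` of matrices over `L` with all entries of `g - 1` and of `g⁻¹ - 1` in `𝔫 𝓞_L`. -/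
def GamA : Subgroup H where
  carrier := {g | (∀ r c, InO 𝔫 ((M g - 1) r c)) ∧ ∀ r c, InO 𝔫 ((M g⁻¹ - 1) r c)}
  one_mem' := by
    show (∀ r c, InO 𝔫 ((M 1 - 1) r c)) ∧ ∀ r c, InO 𝔫 ((M 1⁻¹ - 1) r c)
    rw [inv_one, map_one]
    exact ⟨cong_one 𝔫, cong_one 𝔫⟩
  mul_mem' := by
    intro g h hg hh
    show (∀ r c, InO 𝔫 ((M (g * h) - 1) r c)) ∧ ∀ r c, InO 𝔫 ((M (g * h)⁻¹ - 1) r c)
    rw [_root_.mul_inv_rev, map_mul, map_mul]
    exact ⟨cong_mul 𝔫 hg.1 hh.1, cong_mul 𝔫 hh.2 hg.2⟩
  inv_mem' := by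
    intro g hg
    show (∀ r c, InO 𝔫 ((M g⁻¹ - 1) r c)) ∧ ∀ r c, InO 𝔫 ((M g⁻¹⁻¹ - 1) r c)
    rw [inv_inv]
    exact ⟨hg.2, hg.1⟩

variable {G : Type} [Group G]

/-- **The arithmetic group** `Γ(𝔫)`: the image in `G` of the elements of `H` which are congruent to `1` modulo `𝔫`. -/
def Gam (τ : H →* G) : Subgroup G := (GamA 𝔫 M).map τ

variable {R : Type} [CommRing R] [TopologicalSpace R] [Algebra ℝ R] (p : L →+* R) (ht : n → ℤ) {J : Type} [Fintype J]

variable (K) in
/-- **The density theorem for groups of matrices** `H` over `L` and `G` over `R` (`Mₕ`, `M` their matrices, `p : L → R`, `τ : H → G` the embeddings, `U` the unipotent group of `G`, `a_i` the places of the matrix entries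
which give the characters of `U`, `σ` the action of the Galois group on these places, `Sp z F`: `F` has the parameter `z`, `Adm` the admissible data). For `ε > 0`, `T` and a compact set `Ω` in `G` there is `C` such that
for all ideals `𝔫 ≠ 0`, nondegenerate characters `ψ` (given by `θ`), diagonal `t = diag(d)` in `G`, `x ∈ U t Ω`, admissible `R ≥ 0` and `X`, and continuous `φ` with support in `Ω` the inequality of `Bound` holds with
`C ‖φ‖₂² X`. -/
def Est [TopologicalSpace G] (Mₕ : H →* Matrix n n L) (M : G →* Matrix n n R) (τ : H →* G) (a : J → n × n) (σ : (L ≃ₐ[K] L) → J → J) (Sp : (J → ℂ) → (G → ℂ) → Prop) (O : Set (J → ℝ))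
    (Adm : ℝ → (n → R) → ℝ → ℝ → Prop) : Prop :=
  ∀ [MeasurableSpace G] [BorelSpace G] [MeasurableSpace (Uni ht M)] [BorelSpace (Uni ht M)] (ε T : ℝ), 0 < ε → ∀ Ω : Set G, IsCompact Ω → ∃ C : ℝ,
    ∀ 𝔫 : Ideal (𝓞 K), 𝔫 ≠ ⊥ → ∀ θ : J → (R →ₗ[ℝ] ℝ), Gen M (Uni ht M) p (Gam 𝔫 Mₕ τ) a σ θ → ∀ (t x : G) (d : n → R), M t = Matrix.diagonal d → (∃ u ∈ Uni ht M, ∃ ω ∈ Ω, x = u * t * ω) →
    ∀ R' X : ℝ, 0 ≤ R' → Adm (Ideal.absNorm 𝔫) d R' X → ∀ (μ : Measure G) [μ.IsHaarMeasure] (φ : G → ℂ), Continuous φ → tsupport φ ⊆ Ω → ∀ (ν : Measure (Uni ht M)) [ν.IsHaarMeasure],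
    Bound (Uni ht M) (Gam 𝔫 Mₕ τ) μ ν φ (psi M (Uni ht M) a θ) x Sp O T ε R' (C * (∫ y, ‖φ y‖ ^ 2 ∂μ) * X)

variable (K) in
/-- **The density theorem for groups of matrices**, all archimedean places: for every archimedean place `w` of `L` which is unramified over `K` there is the embedding of the local group `G(L_w)` in `G`, and the estimate
`Est` holds for all embeddings of local groups `G(F)`, `F = ℝ` or `ℂ`, and all `Λ` in the set `Dom`. -/
def Dens [TopologicalSpace G] (Mₕ : H →* Matrix n n L) (M : G →* Matrix n n R) (τ : H →* G) (nr : InfinitePlace L → R → ℝ) (e f : J → Matrix n n ℚ) (tor : (J → ℝ) → n → ℝ) (a : J → n × n)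
    (σ : (L ≃ₐ[K] L) → J → J) (Dom : Set (J → ℝ)) (O : (J → ℝ) → Set (J → ℝ)) (Adm : ℕ → (J → ℝ) → ℝ → (n → R) → ℝ → ℝ → Prop) : Prop :=
  (∀ w : InfinitePlace L, w.IsUnramified K → (w.IsReal → ∃ V : Pl (matF e f ℝ) K nr M, V.w = w) ∧ (w.IsComplex → ∃ V : Pl (matF e f ℂ) K nr M, V.w = w)) ∧
  ∀ (F : Type) [RCLike F] (V : Pl (matF e f F) K nr M), ∀ Λ ∈ Dom, Est K p ht Mₕ M τ a σ (Sph (matF e f F) e f ht tor V.j) (O Λ) (Adm (Module.finrank ℝ F) Λ)

variable (K) in
/-- **The density theorem for** `H ⊆ A ⊆ GL(L)` and its real group over `R`. -/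
def DensCl [IsTopologicalRing R] (A : Subgroup (GL n L)) (H : Subgroup A) (nr : InfinitePlace L → R → ℝ) (e f : J → Matrix n n ℚ) (tor : (J → ℝ) → n → ℝ) (a : J → n × n) (σ : (L ≃ₐ[K] L) → J → J)
    (Dom : Set (J → ℝ)) (O : (J → ℝ) → Set (J → ℝ)) (Adm : ℕ → (J → ℝ) → ℝ → (n → R) → ℝ → ℝ → Prop) : Prop :=
  Dens K p ht ((mat A).comp H.subtype) (matR p A H) (emR p A H) nr e f tor a σ Dom O Adm

end fields

/-! ## 5. Root systems -/

section roots

variable {ι M N : Type} [Fintype ι] [DecidableEq ι] [AddCommGroup M] [Module ℚ M] [AddCommGroup N] [Module ℚ N]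
  {P : RootPairing ι ℚ M N} [P.IsCrystallographic] [P.IsRootSystem] (b : P.Base)

/-- The value `β(y)` of the vector `y = ∑ y_j α_j^∨` on a root. -/
def vl (y : b.support → ℝ) (β : ι) : ℝ := ∑ j : b.support, (P.pairingIn ℤ β j : ℝ) * y j

/-- The orbit of the vector `y` under the Weyl group: `(w β)(y') = β(y)`. -/
def Orb (y : b.support → ℝ) : Set (b.support → ℝ) := {y' | ∃ w ∈ Subgroup.closure (Set.range P.reflectionPerm), ∀ β, vl b y' (w β) = vl b y β}

/-- `Φ_i`: the positive roots which contain the simple root `α_i`. -/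
def Phi (i : b.support) : Finset ι := Finset.univ.filter fun β => 0 < b.toWeightBasis.repr (P.root β) i

/-- `w Φ_i = - Φ_j` for some element `w` of the Weyl group. -/
def Opp (i j : b.support) : Prop :=
  ∃ w ∈ Subgroup.closure (Set.range P.reflectionPerm), ∀ β, β ∈ Phi b i ↔ P.reflectionPerm (w β) (w β) ∈ Phi b j

/-- The coefficient of the simple root `α_l` in a root. -/
def mc (l : b.support) (β : ι) : ℤ := b.toWeightBasisInt.repr (P.rootSpanMem ℤ β) l

/-- The sum of `f` over `Φ_i` and over `Φ_j`. -/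
def S2 {A : Type} [AddCommMonoid A] (i j : b.support) (f : ι → A) : A := ∑ β ∈ Phi b i, f β + ∑ β ∈ Phi b j, f β

/-- **The size condition** for the level `N`, the function `S` on the roots and the numbers `E_β > 0`: for `w Φ_i = - Φ_j`: `exp(S_ij) ≤ N ^ |Φ_i| E_ij`, `S_ij` the sum of `S` over `Φ_i` and `Φ_j`, `E_ij` the product of `E`
over `Φ_i` and `Φ_j`, or for some simple root `α_l` and `k ≥ m_l(β)` for all `β`: `exp(S_ij) ^ k ≤ N ^ P E_ij ^ k`, `P` the sum of the coefficients `m_l` of the roots in `Φ_i` and in `Φ_j`. -/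
def Sz (N : ℝ) (S E : ι → ℝ) : Prop :=
  ∀ i j, Opp b i j → Real.exp (S2 b i j S) ≤ N ^ (Phi b i).card * ((∏ β ∈ Phi b i, E β) * ∏ β ∈ Phi b j, E β) ∨
    ∃ (l : b.support) (k : ℕ), (∀ β, mc b l β ≤ k) ∧ Real.exp (S2 b i j S) ^ k ≤ N ^ S2 b i j (mc b l) * ((∏ β ∈ Phi b i, E β) * ∏ β ∈ Phi b j, E β) ^ k

/-- The Cartan matrix of the base `b` is `A`. -/
def Typ {n : ℕ} (A : Matrix (Fin n) (Fin n) ℤ) : Prop := ∃ e : b.support ≃ Fin n, ∀ i j : b.support, P.pairingIn ℤ i j = A (e i) (e j)

/-- **The exceptional types** `G₂`, `F₄`, `E₆`, `E₇`, `E₈` and the numbers `D = 15, 88, 96, 243, 841`. (The dimensions of the groups are `14, 52, 78, 133, 248`.) -/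
def Exc (D : ℕ) : Prop :=
  (Typ b CartanMatrix.G₂ ∧ D = 15) ∨ (Typ b CartanMatrix.F₄ ∧ D = 88) ∨ (Typ b CartanMatrix.E₆ ∧ D = 96) ∨ (Typ b CartanMatrix.E₇ ∧ D = 243) ∨ (Typ b CartanMatrix.E₈ ∧ D = 841)

/-- **An action of the Galois group on the Dynkin diagram**: on the roots, it preserves the base and the Cartan integers. -/
structure QS (K L : Type) [Field K] [Field L] [Algebra K L] where
  /-- The action on the roots. -/
  act : (L ≃ₐ[K] L) →* Equiv.Perm ι
  /-- It preserves the base. -/
  base : ∀ s i, act s i ∈ b.support ↔ i ∈ b.support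
  /-- It preserves the Cartan integers. -/
  pair : ∀ s β γ, P.pairingIn ℤ (act s β) (act s γ) = P.pairingIn ℤ β γ

variable {b} {K L : Type} [Field K] [NumberField K] [Field L] [NumberField L] [Algebra K L] (Q : QS b K L)

/-- The action on the simple roots. -/
def sp (s : L ≃ₐ[K] L) (i : b.support) : b.support := ⟨Q.act s i, (Q.base s i).2 i.2⟩

/-- **The admissible data** for the dominant vector `Λ` and `dF = [F : ℝ]` (`N = N(𝔫)` the norm over `K`, `|z|` the absolute value of the norm from `L ⊗ ℝ` to `ℝ`, `f = [L : K]`): `d` has the entries `a_β` at the roots and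
`1` at the zero weights; the size condition holds for the level `N ^ f`, `S(β) = dF R ∑_s (s β)(Λ)` and `E_β = |a_β|`, or the group is of exceptional type, `|a_β| ≥ N ^ (f ht β)` for `β > 0` and
`exp(2 R ρ_F(Λ)) ≤ N ^ D`, `ρ_F(Λ) = dF ∑ Λ_j`; `X = (∏_{β > 0} |a_β|) ^ (1/f) / N ^ #{β > 0}`. -/
def Adm (dF : ℕ) (Λ : b.support → ℝ) (N : ℝ) (d : b.support ⊕ ι → mixedEmbedding.mixedSpace L) (R X : ℝ) : Prop :=
  ∃ a : ι → mixedEmbedding.mixedSpace L, d = Sum.elim (fun _ => 1) a ∧
    (Sz b (N ^ Module.finrank K L) (fun β => dF * R * ∑ s : L ≃ₐ[K] L, vl b Λ (Q.act s β)) (fun β => mixedEmbedding.norm (a β)) ∨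
      ∃ D, Exc b D ∧ (∀ β, 0 < b.height β → (N ^ Module.finrank K L) ^ b.height β ≤ mixedEmbedding.norm (a β)) ∧ Real.exp (2 * R * (dF * ∑ j, Λ j)) ≤ N ^ D) ∧
    X = (∏ β with 0 < b.height β, mixedEmbedding.norm (a β)) ^ ((Module.finrank K L : ℝ)⁻¹) / N ^ (Finset.univ.filter fun β => 0 < b.height β).card

end roots

/-! ## 6. The statement -/

section statement

variable {ι M N : Type} [Fintype ι] [DecidableEq ι] [AddCommGroup M] [Module ℚ M] [AddCommGroup N] [Module ℚ N]
  {P : RootPairing ι ℚ M N} [P.IsCrystallographic] {b : P.Base} {K L : Type} [Field K] [NumberField K] [Field L] [NumberField L] [Algebra K L]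

variable (L) in
/-- The split group `G(L)`, generated by the `exp(t e_i)`, `exp(t f_i)`, `t ∈ L`. -/
def GL' (b : P.Base) : Subgroup (GL (b.support ⊕ ι) L) := Grp RootPairing.GeckConstruction.e RootPairing.GeckConstruction.f L

/-- **The quasi-split group `G(K)`**. -/
def GQ (Q : QS b K L) : Subgroup (GL' L b) := Fix (Sum.elim (fun _ => 0) b.height) (mat (GL' L b)) fun s => Sum.map (sp Q s) (Q.act s)

/-- **The density theorem with explicit exponents** at the archimedean places `w` of `L` with `L_w = K_w = F`, for dominant vectors `Λ`, for the globally generic spectrum of the quasi-split simple group `G(K)` of type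
`(P, Q)` over `K`. The entry of `u ∈ U` in the row of the zero weight of `α_i` and the column of the root `-α_i` is the coordinate of `u` at `α_i`; the exponential `exp(y)` of `y = ∑ y_j α_j^∨` is the diagonal matrix
with the entries `exp(β(y))` at the roots and `1` at the zero weights. For the exceptional types at the height `|a_β| = N ^ (f ht β)` it goes beyond the density hypothesis, which is the condition
`exp(2 R ρ_F(Λ)) ≤ N ^ (dim G)` (`ρ_F`: the parameter of the trivial representation), in all directions `Λ`. -/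
def ExpDensity [P.IsRootSystem] (Q : QS b K L) : Prop :=
  DensCl K (mixedEmbedding L) (Sum.elim (fun _ => 0) b.height) (GL' L b) (GQ Q) (fun w => mixedEmbedding.normAtPlace w) RootPairing.GeckConstruction.e RootPairing.GeckConstruction.f
    (fun y => Sum.elim (fun _ => 0) (vl b y)) (fun i => (Sum.inl i, Sum.inr (P.reflectionPerm i i))) (sp Q) {Λ | ∀ i : b.support, 0 ≤ vl b Λ i} (Orb b) (Adm Q)

end statement

end

end Pool.Agent.Lib.L8.PW
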