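import Pool.Agent.Lib.L8.PV.Main
import Pool.Agent.Lib.L8.PW.Num
import Pool.Agent.Lib.L8.PW.Stm

/-!
# The exceptional types: the size condition
-/

namespace Pool.Agent.Lib.L8.PW

open Matrix NumberField

noncomputable section

set_option linter.unusedSectionVars false

variable {ι M N : Type} [Fintype ι] [DecidableEq ι] [AddCommGroup M] [Module ℚ M] [AddCommGroup N] [Module ℚ N]
  {P : RootPairing ι ℚ M N} [P.IsCrystallographic] [P.IsRootSystem] [P.IsReduced] [P.IsIrreducible] {b : P.Base}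

/-- The numbers `r` with `α_i(r) = 1` and the inequality `D y_i ≤ 2 r_i ∑ y_j` for dominant `y`. -/
def HasR (b : P.Base) (D : ℕ) : Prop :=
  ∃ r : b.support → ℝ, (∀ i, 0 ≤ r i) ∧ (∀ i, L8.al (L8.cA b) i r = 1) ∧ ∀ y : b.support → ℝ, (∀ i, 0 ≤ L8.al (L8.cA b) i y) → ∀ i, (D : ℝ) * y i ≤ 2 * r i * ∑ j, y j

theorem hasR_of {n : ℕ} {A : Matrix (Fin n) (Fin n) ℤ} (h : Typ b A) {D : ℕ} {r : Fin n → ℝ} (h0 : ∀ k, 0 ≤ r k) (h1 : ∀ k, ∑ j, ((A k j : ℤ) : ℝ) * r j = 1)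
    (h2 : ∀ y : Fin n → ℝ, (∀ k, 0 ≤ ∑ j, ((A k j : ℤ) : ℝ) * y j) → ∀ i, (D : ℝ) * y i ≤ 2 * r i * ∑ j, y j) : HasR b D := by
  obtain ⟨e, he⟩ := h
  have key : ∀ (y : b.support → ℝ) (i : b.support), L8.al (L8.cA b) i y = ∑ j, ((A (e i) j : ℤ) : ℝ) * y (e.symm j) := by
    intro y i
    unfold L8.al
    rw [← Equiv.sum_comp e]
    refine Finset.sum_congr rfl fun j _ => ?_
    rw [Equiv.symm_apply_apply, ← he i j]
    rfl
  refine ⟨fun i => r (e i), fun i => h0 _, fun i => ?_, fun y hy i => ?_⟩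
  · rw [key]
    simp only [Equiv.apply_symm_apply]
    exact h1 _
  · have h3 := h2 (fun k => y (e.symm k)) (fun k => by
      have h4 := hy (e.symm k)
      rw [key, Equiv.apply_symm_apply] at h4
      exact h4) (e i)
    rw [Equiv.symm_apply_apply, Equiv.sum_comp e.symm y] at h3
    exact h3

theorem hasR {D : ℕ} (h : Exc b D) : HasR b D := by
  rcases h with ⟨h, rfl⟩ | ⟨h, rfl⟩ | ⟨h, rfl⟩ | ⟨h, rfl⟩ | ⟨h, rfl⟩
  · exact hasR_of h (fun k => by fin_cases k <;> norm_num) num_G2_one (fun y hy i => by exact_mod_cast num_G2 y hy i)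
  · exact hasR_of h (fun k => by fin_cases k <;> norm_num) num_F4_one (fun y hy i => by exact_mod_cast num_F4 y hy i)
  · exact hasR_of h (fun k => by fin_cases k <;> norm_num) num_E6_one (fun y hy i => by exact_mod_cast num_E6 y hy i)
  · exact hasR_of h (fun k => by fin_cases k <;> norm_num) num_E7_one (fun y hy i => by exact_mod_cast num_E7 y hy i)
  · exact hasR_of h (fun k => by fin_cases k <;> norm_num) num_E8_one (fun y hy i => by exact_mod_cast num_E8 y hy i)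

theorem exc_pos {D : ℕ} (h : Exc b D) : 0 < D := by
  rcases h with ⟨_, rfl⟩ | ⟨_, rfl⟩ | ⟨_, rfl⟩ | ⟨_, rfl⟩ | ⟨_, rfl⟩ <;> norm_num

theorem ht_r {r : b.support → ℝ} (hr : ∀ i, L8.al (L8.cA b) i r = 1) (β : ι) : L8.pry b r (Sum.inr β) = ((b.height β : ℤ) : ℝ) := by
  have h1 : L8.pry b r (Sum.inr β) = ∑ k, ((L1S.wq b (Sum.inr β) k : ℚ) : ℝ) * L8.al (L8.cA b) k r := L8.pry_wq r (Sum.inr β)
  rw [h1]
  simp only [hr, mul_one]
  have h2 := L8.height_wq (b := b) β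
  have h3 := congrArg (fun q : ℚ => (q : ℝ)) h2
  push_cast at h3
  exact h3.symm

/-- `∑_(β ∈ Φ_i) ht β = c_i r_i`. -/
theorem sum_ht {r : b.support → ℝ} (hr : ∀ i, L8.al (L8.cA b) i r = 1) (i : b.support) : ((∑ β ∈ Phi b i, b.height β : ℤ) : ℝ) = ((L8.cw b i : ℤ) : ℝ) * r i := by
  rw [← L8.sum_phi i r]
  push_cast
  exact Finset.sum_congr rfl fun β _ => (ht_r hr β).symm

variable {K L : Type} [Field K] [NumberField K] [Field L] [NumberField L] [Algebra K L]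

/-- **The size condition for the exceptional types.** -/
theorem sz_exc [IsGalois K L] (Q : PV.QS b K L) {D : ℕ} (hD : Exc b D) {dF : ℕ} {Λ : b.support → ℝ} (hΛ : ∀ i : b.support, 0 ≤ vl b Λ i) {n R : ℝ} (hn : 1 ≤ n) (hR : 0 ≤ R) {E : ι → ℝ}
    (hE : ∀ β, 0 < b.height β → (n ^ Module.finrank K L) ^ b.height β ≤ E β) (hs : Real.exp (2 * R * (dF * ∑ j, Λ j)) ≤ n ^ D) :
    PV.Sz b (n ^ Module.finrank K L) (fun β => dF * R * ∑ s : L ≃ₐ[K] L, PV.vl b Λ (Q.act s β)) E := by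
  obtain ⟨r, r0, hr, hy⟩ := hasR hD
  have hD0 : (0 : ℝ) < D := by exact_mod_cast exc_pos hD
  have hn0 : (0 : ℝ) < n := lt_of_lt_of_le one_pos hn
  set f : ℕ := Module.finrank K L with hf
  have hnf : 1 ≤ n ^ f := one_le_pow₀ hn
  have hnf0 : 0 < n ^ f := lt_of_lt_of_le one_pos hnf
  -- the trace
  set y : b.support → ℝ := L8.trQ (PV.old Q) Λ with hydef
  have y1 : ∀ i, 0 ≤ L8.al (L8.cA b) i y := by
    intro i
    rw [← L8.ig19b_al, hydef, L8.trQ_pry]
    refine Finset.sum_nonneg fun s _ => ?_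
    exact hΛ ⟨Q.act s i, (Q.base s i).2 i.2⟩
  have y2 : ∑ i, y i = f * ∑ i, Λ i := by
    rw [hydef, L8.trQ_sum]
    congr 1
    rw [hf, ← IsGalois.card_aut_eq_finrank K L, Nat.card_eq_fintype_card]
  have hlog : 2 * R * (dF * ∑ j, Λ j) ≤ D * Real.log n := by
    have h1 := Real.log_le_log (Real.exp_pos _) hs
    rwa [Real.log_exp, Real.log_pow] at h1
  have y3 : ∀ i, dF * R * y i ≤ f * Real.log n * r i := by
    intro i
    have h1 := mul_le_mul_of_nonneg_left (hy y y1 i) (mul_nonneg (Nat.cast_nonneg dF) hR)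
    rw [y2] at h1
    have h2 := mul_le_mul_of_nonneg_left hlog (mul_nonneg (r0 i) (Nat.cast_nonneg f))
    have h3 : (D : ℝ) * (dF * R * y i) ≤ D * (f * Real.log n * r i) := by nlinarith
    exact le_of_mul_le_mul_left h3 hD0
  -- the product of the E
  have prod : ∀ i, Real.exp (f * Real.log n * (((L8.cw b i : ℤ) : ℝ) * r i)) ≤ ∏ β ∈ PV.Phi b i, E β := by
    intro i
    have h1 : ∏ β ∈ PV.Phi b i, (n ^ f) ^ b.height β ≤ ∏ β ∈ PV.Phi b i, E β :=
      Finset.prod_le_prod (fun β _ => (zpow_pos hnf0 _).le) fun β hβ => hE β (L1S.d3_pos hβ)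
    refine le_trans (le_of_eq ?_) h1
    have h2 : ∀ k : ℤ, (n ^ f) ^ k = Real.exp (f * Real.log n * (k : ℝ)) := by
      intro k
      rw [← Real.rpow_intCast, Real.rpow_def_of_pos hnf0, Real.log_pow]
    rw [← sum_ht hr i, Finset.prod_congr rfl fun β _ => h2 (b.height β), ← Real.exp_sum, ← Finset.mul_sum]
    push_cast
    rfl
  intro i j _
  left
  have eS : PV.S2 b i j (fun β => dF * R * ∑ s : L ≃ₐ[K] L, PV.vl b Λ (Q.act s β)) = dF * R * (((L8.cw b i : ℤ) : ℝ) * y i + ((L8.cw b j : ℤ) : ℝ) * y j) := by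
    unfold PV.S2
    rw [← L8.sum_phi i y, ← L8.sum_phi j y, mul_add, Finset.mul_sum, Finset.mul_sum]
    congr 1
    · exact Finset.sum_congr rfl fun β _ => by rw [hydef, L8.trQ_pry]; rfl
    · exact Finset.sum_congr rfl fun β _ => by rw [hydef, L8.trQ_pry]; rfl
  rw [eS]
  have ci : (0 : ℝ) ≤ ((L8.cw b i : ℤ) : ℝ) := by exact_mod_cast (L8.cw_pos i).le
  have cj : (0 : ℝ) ≤ ((L8.cw b j : ℤ) : ℝ) := by exact_mod_cast (L8.cw_pos j).le
  calc Real.exp (dF * R * (((L8.cw b i : ℤ) : ℝ) * y i + ((L8.cw b j : ℤ) : ℝ) * y j))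
      ≤ Real.exp (f * Real.log n * (((L8.cw b i : ℤ) : ℝ) * r i)) * Real.exp (f * Real.log n * (((L8.cw b j : ℤ) : ℝ) * r j)) := by
        rw [← Real.exp_add]
        refine Real.exp_le_exp.2 ?_
        have h1 := mul_le_mul_of_nonneg_left (y3 i) ci
        have h2 := mul_le_mul_of_nonneg_left (y3 j) cj
        nlinarith
    _ ≤ (∏ β ∈ PV.Phi b i, E β) * ∏ β ∈ PV.Phi b j, E β := mul_le_mul (prod i) (prod j) (Real.exp_pos _).le ((Real.exp_pos _).le.trans (prod i))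
    _ ≤ (n ^ f) ^ (PV.Phi b i).card * ((∏ β ∈ PV.Phi b i, E β) * ∏ β ∈ PV.Phi b j, E β) := by
        refine le_mul_of_one_le_left (mul_nonneg ((Real.exp_pos _).le.trans (prod i)) ((Real.exp_pos _).le.trans (prod j))) (one_le_pow₀ hnf)

end

end Pool.Agent.Lib.L8.PW
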