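import Pool.Agent.Lib.L8.PW.Exc

/-!
# The density theorem with explicit exponents at an archimedean place: proof of the statement in its final form
-/

namespace Pool.Agent.Lib.L8.PW

open MeasureTheory Matrix NumberField

noncomputable section

set_option linter.unusedSectionVars false

variable {ι M N : Type} [Fintype ι] [DecidableEq ι] [AddCommGroup M] [Module ℚ M] [AddCommGroup N] [Module ℚ N]
  {P : RootPairing ι ℚ M N} [P.IsCrystallographic] {b : P.Base} {K L : Type} [Field K] [NumberField K] [Field L] [NumberField L] [Algebra K L] (Q : QS b K L)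

theorem aut_gen {G : Type} [Group G] [MeasurableSpace G] [TopologicalSpace G] {Γ : Subgroup G} {μ : Measure G} {D : Set G} {φ F : G → ℂ} {c : ℂ} (h : Aut Γ μ D φ F c) : PV.Aut Γ μ D φ F c :=
  ⟨h.cont, h.inv, h.l2, h.eig⟩

/-- The action in the form of `PV`. -/
def oq : PV.QS b K L := ⟨Q.act, Q.base, Q.pair⟩

/-- The real group. -/
abbrev Gr : Type := RG (n := b.support ⊕ ι) (mixedEmbedding L) (GL' L b) (GQ Q)

/-- Its matrices. -/
abbrev Mr : Gr Q →* Matrix (b.support ⊕ ι) (b.support ⊕ ι) (mixedEmbedding.mixedSpace L) := matR (mixedEmbedding L) (GL' L b) (GQ Q)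

/-- The height. -/
abbrev hb (b : P.Base) : b.support ⊕ ι → ℤ := Sum.elim (fun _ => 0) b.height

/-- `e_i`, `f_i`. -/
abbrev eb (b : P.Base) : b.support → Matrix (b.support ⊕ ι) (b.support ⊕ ι) ℚ := RootPairing.GeckConstruction.e

abbrev fb (b : P.Base) : b.support → Matrix (b.support ⊕ ι) (b.support ⊕ ι) ℚ := RootPairing.GeckConstruction.f

/-- The embeddings of the local group. -/
abbrev PlQ (F : Type) [RCLike F] : Type := Pl (matF (eb b) (fb b) F) K (fun w : InfinitePlace L => (mixedEmbedding.normAtPlace w : mixedEmbedding.mixedSpace L → ℝ)) (Mr Q)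

theorem gr_eq : Gr Q = PV.GR (oq Q) := rfl

theorem uni_eq : Uni (hb b) (Mr Q) = PV.UR (oq Q) := rfl

theorem gam_eq (𝔫 : Ideal (𝓞 K)) : Gam 𝔫 ((mat (GL' L b)).comp (GQ Q).subtype) (emR (mixedEmbedding L) (GL' L b) (GQ Q)) = PV.Gam 𝔫 (PV.emR (oq Q)) := rfl

section places

variable {F : Type} [RCLike F]

/-- The embedding in the form of `PV`. -/
def toPV (V : PlQ Q F) : PV.Pl K (PV.eQ b) (PV.fQ b) (PV.GR (oq Q)) F where
  w := V.w
  unr := V.unr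
  p := V.p
  surj := V.surj
  norm := V.norm
  j := V.j
  cont := V.cont
  at_w := V.at_w
  off_w := V.off_w

/-- The embedding in the final form. -/
def ofPV (V : PV.Pl K (PV.eQ b) (PV.fQ b) (PV.GR (oq Q)) F) : PlQ Q F where
  w := V.w
  unr := V.unr
  p := V.p
  surj := V.surj
  norm := V.norm
  j := V.j
  cont := V.cont
  at_w := V.at_w
  off_w := V.off_w

variable [P.IsRootSystem] [P.IsReduced] [P.IsIrreducible]

theorem maxC_eq (C : Subgroup (LG (eb b) (fb b) F)) : MaxC (matF (eb b) (fb b) F) (eb b) (fb b) C ↔ PV.MaxC (PV.eQ b) (PV.fQ b) F C := Iff.rfl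

theorem sph_of {V : PlQ Q F} {z : b.support → ℂ} {X : Gr Q → ℂ} (h : Sph (matF (eb b) (fb b) F) (eb b) (fb b) (hb b) (fun y => Sum.elim (fun _ => 0) (vl b y)) V.j z X) :
    PV.Sph (PV.h0 b) (PV.tor0 b) (toPV Q V).j z X := h

end places

variable [P.IsRootSystem] [P.IsReduced] [P.IsIrreducible]

theorem gen_of {𝔫 : Ideal (𝓞 K)} {θ : b.support → (mixedEmbedding.mixedSpace L →ₗ[ℝ] ℝ)}
    (h : Gen (Mr Q) (Uni (hb b) (Mr Q)) (mixedEmbedding L) (Gam 𝔫 ((mat (GL' L b)).comp (GQ Q).subtype) (emR (mixedEmbedding L) (GL' L b) (GQ Q))) (fun i => (Sum.inl i, Sum.inr (P.reflectionPerm i i))) (sp Q) θ) :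
    PV.Gen (PV.UR (oq Q)) (mixedEmbedding L) (PV.Gam 𝔫 (PV.emR (oq Q))) (fun i => (Sum.inl i, Sum.inr (P.reflectionPerm i i))) (PV.sp (oq Q)) θ := h

theorem adm_of [IsGalois K L] {dF : ℕ} {Λ : b.support → ℝ} (hΛ : ∀ i : b.support, 0 ≤ vl b Λ i) {n : ℝ} (hn : 1 ≤ n) {d : b.support ⊕ ι → mixedEmbedding.mixedSpace L} {R X : ℝ} (hR : 0 ≤ R)
    (h : Adm Q dF Λ n d R X) : PV.Adm (oq Q) dF Λ n d R X := by
  obtain ⟨a, h1, h2, h3⟩ := h
  refine ⟨a, h1, ?_, h3⟩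
  rcases h2 with h2 | ⟨D, hD, hE, hs⟩
  · exact h2
  · exact sz_exc (oq Q) hD hΛ hn hR hE hs

/-- **The density theorem at the place** `V`. -/
theorem est [IsGalois K L] {F : Type} [RCLike F] (V : PlQ Q F) {Λ : b.support → ℝ} (hΛ : ∀ i : b.support, 0 ≤ vl b Λ i) :
    Est K (mixedEmbedding L) (hb b) ((mat (GL' L b)).comp (GQ Q).subtype) (Mr Q) (emR (mixedEmbedding L) (GL' L b) (GQ Q)) (fun i => (Sum.inl i, Sum.inr (P.reflectionPerm i i))) (sp Q)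
      (Sph (matF (eb b) (fb b) F) (eb b) (fb b) (hb b) (fun y => Sum.elim (fun _ => 0) (vl b y)) V.j) (Orb b Λ) (Adm Q (Module.finrank ℝ F) Λ) := by
  intro m1 hm1 m2 hm2 ε T hε Ω hΩ
  obtain ⟨C, hC⟩ := @PV.est _ _ _ _ _ _ _ _ _ _ _ b K L _ _ _ _ _ (oq Q) _ _ _ _ F _ (toPV Q V) Λ hΛ m1 hm1 m2 hm2 ε T hε Ω hΩ
  refine ⟨C, ?_⟩
  rintro 𝔫 h𝔫 θ hθ t x d ht ⟨u, hu, ω, hω, hx⟩ R X hR hA μ hμ φ cφ sφ ν hν D D₀ hD hD₀ m f c z y hf hort hsp hzT hy
  have hn : (1 : ℝ) ≤ (Ideal.absNorm 𝔫 : ℝ) := by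
    have h1 : 0 < Ideal.absNorm 𝔫 := Nat.pos_of_ne_zero fun e => h𝔫 (Ideal.absNorm_eq_zero_iff.1 e)
    exact_mod_cast h1
  exact @hC 𝔫 h𝔫 θ hθ t x d ht ⟨⟨u, hu⟩, ω, hω, hx⟩ R X hR (adm_of Q hΛ hn hR hA) μ hμ φ cφ sφ ν hν D D₀ hD hD₀ m f c z y (fun l => @aut_gen _ _ m1 _ _ _ _ _ _ _ (hf l)) hort hsp hzT hy

theorem places [IsGalois K L] (w : InfinitePlace L) (hw : w.IsUnramified K) : (w.IsReal → ∃ V : PlQ Q ℝ, V.w = w) ∧ (w.IsComplex → ∃ V : PlQ Q ℂ, V.w = w) := by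
  obtain ⟨h1, h2⟩ := (PV.expDensity (oq Q)).1 w hw
  refine ⟨fun h => ?_, fun h => ?_⟩
  · obtain ⟨V, hV⟩ := h1 h
    exact ⟨ofPV Q V, hV⟩
  · obtain ⟨V, hV⟩ := h2 h
    exact ⟨ofPV Q V, hV⟩

/-- **The theorem.** -/
theorem expDensity [IsGalois K L] : ExpDensity Q := ⟨places Q, fun _ _ V _ hΛ => est Q V hΛ⟩

end

end Pool.Agent.Lib.L8.PW
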